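import Mathlib

open List

namespace H11.Coset

variable {G ι α : Type} [Group G]

/-- The group element represented by a letter of `A = X ∪ X⁻¹`. -/
def lt (x : ι → G) (p : ι × Bool) : G := if p.2 then x p.1 else (x p.1)⁻¹

/-- The group element represented by a word over `A`. -/
def ev (x : ι → G) (w : List (ι × Bool)) : G := (w.map (lt x)).prod

/-- The path metric of the Cayley graph. -/
noncomputable def dist (x : ι → G) (g h : G) : ℕ := sInf {n | ∃ w, w.length = n ∧ g * ev x w = h}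

/-- A pair of words read synchronously, the shorter one padded at the end by `none`. -/
def conv : List α → List α → List (Option α × Option α)
  | [], w => w.map fun b => (none, some b)
  | a :: v, [] => (some a, none) :: conv v []
  | a :: v, b :: w => (some a, some b) :: conv v w

/-- `L` contains a representative of every right coset `H g`. -/
def Reps (x : ι → G) (H : Subgroup G) (L : Language (ι × Bool)) : Prop :=
  ∀ g, ∃ w ∈ L, ev x w * g⁻¹ ∈ H

def CosetAutomatic (x : ι → G) (H : Subgroup G) : Prop :=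
  ∃ L : Language (ι × Bool), L.IsRegular ∧ Reps x H L ∧ ∀ a : Option (ι × Bool),
    ∃ M : Language (Option (ι × Bool) × Option (ι × Bool)), M.IsRegular ∧
      ∀ v w, conv v w ∈ M ↔ v ∈ L ∧ w ∈ L ∧ ev x v * a.elim 1 (lt x) * (ev x w)⁻¹ ∈ H

def StronglyCosetAutomatic (x : ι → G) (H : Subgroup G) : Prop :=
  ∃ (L : Language (ι × Bool)) (K : ℕ), L.IsRegular ∧ Reps x H L ∧
    ∀ v ∈ L, ∀ w ∈ L, ∀ h ∈ H, dist x (ev x v) (h * ev x w) ≤ 1 →
      ∀ i, dist x (ev x (v.take i)) (h * ev x (w.take i)) ≤ K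

def D [DecidableEq α] (x y : α) (s : Fin 3) : DFA α (Fin 3) :=
  ⟨fun s c => if s = 0 ∧ c = x then 0 else if s = 0 ∧ c = y then 1 else 2, 0, {s}⟩

theorem D0 [DecidableEq α] (x y : α) (s : Fin 3) (w : List α) :
    (D x y s).eval w = 0 ↔ ∃ n, w = replicate n x := by
  induction w using List.reverseRecOn with
  | nil => exact iff_of_true rfl ⟨0, rfl⟩
  | append_singleton w c ih =>
    rw [DFA.eval_append_singleton]
    constructor
    · intro h
      have : (D x y s).eval w = 0 ∧ c = x := by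
        by_contra c; simp only [D] at h c; rw [if_neg c] at h; split_ifs at h <;> simp at h
      obtain ⟨n, rfl⟩ := ih.1 this.1
      exact ⟨n + 1, by rw [this.2, replicate_succ']⟩
    · rintro ⟨_ | n, h⟩
      · simp at h
      · rw [replicate_succ'] at h
        obtain ⟨h1, h2⟩ := append_inj' h rfl
        exact if_pos ⟨ih.2 ⟨n, h1⟩, by simpa using h2⟩

def R (x : α) : Language α := {w | ∃ n, w = replicate n x}
def S (x y : α) : Language α := {w | ∃ n, w = replicate n x ++ [y]}

theorem R_reg [DecidableEq α] (x : α) : (R x).IsRegular :=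
  ⟨_, inferInstance, D x x 0, Set.ext fun w => D0 x x 0 w⟩

theorem S_reg [DecidableEq α] (x y : α) (h : y ≠ x) : (S x y).IsRegular := by
  refine ⟨_, inferInstance, D x y 1, Set.ext fun w => ?_⟩
  change (D x y 1).eval w = 1 ↔ ∃ n, _
  rcases eq_nil_or_concat' w with rfl | ⟨w, c, rfl⟩
  · simp [D]
  rw [DFA.eval_append_singleton]
  simp only [append_singleton_inj, exists_and_right, ← D0 x y 1]
  generalize (D x y 1).eval w = s
  simp only [D]
  split_ifs <;> simp_all [eq_comm (a := x)]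

theorem conv_fst (v w : List α) : (conv v w).filterMap Prod.fst = v := by
  fun_induction conv v w <;> simp_all

theorem conv_snd (v w : List α) : (conv v w).filterMap Prod.snd = w := by
  fun_induction conv v w
  · simp
  · rwa [filterMap_cons_none rfl]
  · simp_all

theorem conv_eq (v w : List α) (c) (h : conv (c.filterMap Prod.fst) (c.filterMap Prod.snd) = c) :
    conv v w = c ↔ v = c.filterMap Prod.fst ∧ w = c.filterMap Prod.snd :=
  ⟨fun e => e ▸ ⟨(conv_fst v w).symm, (conv_snd v w).symm⟩, fun e => by rw [e.1, e.2, h]⟩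

theorem mem_R (p q : α) (v w : List α) : conv v w ∈ R (some p, some q) ↔
    ∃ n, v = replicate n p ∧ w = replicate n q := exists_congr fun n => by
  rw [conv_eq _ _ _ (by induction n <;> simp_all [conv, replicate_succ])]; simp

theorem mem_S1 (p q : α) (v w : List α) : conv v w ∈ S (some p, some q) (none, some q) ↔
    ∃ n, v = replicate n p ∧ w = replicate (n + 1) q := exists_congr fun n => by
  rw [conv_eq _ _ _ (by induction n <;> simp_all [conv, replicate_succ])]; simp [replicate_succ']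

theorem mem_S2 (p q : α) (v w : List α) : conv v w ∈ S (some p, some q) (some p, none) ↔
    ∃ n, v = replicate (n + 1) p ∧ w = replicate n q := exists_congr fun n => by
  rw [conv_eq _ _ _ (by induction n <;> simp_all [conv, replicate_succ])]; simp [replicate_succ']

def e : FreeGroup Bool →* Multiplicative ℤ := FreeGroup.lift fun i => .ofAdd (if i then 1 else 0)

theorem e_rep (n : ℕ) (s : Bool) :
    (e (ev FreeGroup.of (replicate n (true, s)))).toAdd = if s then (n : ℤ) else -n := by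
  cases s <;> simp [ev, lt, e]

theorem mem_ker (g h k : FreeGroup Bool) :
    g * h * k⁻¹ ∈ e.ker ↔ (e g).toAdd + (e h).toAdd = (e k).toAdd := by
  simp [MonoidHom.mem_ker, mul_inv_eq_one, ← toAdd_mul]

theorem auto : CosetAutomatic .of e.ker := by
  refine ⟨R (true, true) + R (true, false), (R_reg _).add (R_reg _), fun g => ?_, fun a => ?_⟩
  · have := mem_ker (h := 1)
    simp only [mul_one] at this
    obtain ⟨n, h | h⟩ := (e g).toAdd.eq_nat_or_neg
    · exact ⟨_, .inl ⟨n, rfl⟩, by simp [this, e_rep, h]⟩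
    · exact ⟨_, .inr ⟨n, rfl⟩, by simp [this, e_rep, h]⟩
  have h : (e (a.elim 1 (lt .of))).toAdd = 0 ∨ (e (a.elim 1 (lt .of))).toAdd = 1 ∨
      (e (a.elim 1 (lt .of))).toAdd = -1 := by
    rcases a with _ | ⟨_ | _, _ | _⟩ <;> simp [lt, e]
  simp only [mem_ker]
  set p := (true, true)
  set q := (true, false)
  rcases h with h | h | h <;> rw [h]
  · refine ⟨R (some p, some p) + R (some q, some q), (R_reg _).add (R_reg _), fun v w => ?_⟩
    simp only [Language.mem_add, mem_R]
    constructor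
    · rintro (⟨n, rfl, rfl⟩ | ⟨n, rfl, rfl⟩)
      · exact ⟨.inl ⟨_, rfl⟩, .inl ⟨_, rfl⟩, by simp⟩
      · exact ⟨.inr ⟨_, rfl⟩, .inr ⟨_, rfl⟩, by simp⟩
    · rintro ⟨⟨n, rfl⟩ | ⟨n, rfl⟩, ⟨m, rfl⟩ | ⟨m, rfl⟩, h⟩ <;> simp [p, q, e_rep] at h
      · exact .inl ⟨n, rfl, by rw [h]⟩
      · obtain ⟨rfl, rfl⟩ : n = 0 ∧ m = 0 := by omega
        exact .inl ⟨0, rfl, rfl⟩
      · obtain ⟨rfl, rfl⟩ : n = 0 ∧ m = 0 := by omega
        exact .inl ⟨0, rfl, rfl⟩
      · exact .inr ⟨n, rfl, by rw [h]⟩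
  · refine ⟨S (some p, some p) (none, some p) + S (some q, some q) (some q, none),
      (S_reg _ _ (by simp)).add (S_reg _ _ (by simp)), fun v w => ?_⟩
    simp only [Language.mem_add, mem_S1, mem_S2]
    constructor
    · rintro (⟨n, rfl, rfl⟩ | ⟨n, rfl, rfl⟩)
      · exact ⟨.inl ⟨_, rfl⟩, .inl ⟨_, rfl⟩, by simp [p, e_rep]⟩
      · exact ⟨.inr ⟨_, rfl⟩, .inr ⟨_, rfl⟩, by simp [q, e_rep]⟩
    · rintro ⟨⟨n, rfl⟩ | ⟨n, rfl⟩, ⟨m, rfl⟩ | ⟨m, rfl⟩, h⟩ <;> simp only [p, q, e_rep] at h <;>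
        simp only [if_true, Bool.false_eq_true, if_false] at h
      · exact .inl ⟨n, rfl, by rw [show m = n + 1 by omega]⟩
      · omega
      · obtain ⟨rfl, rfl⟩ | ⟨rfl, rfl⟩ : n = 0 ∧ m = 1 ∨ n = 1 ∧ m = 0 := by omega
        exacts [.inl ⟨0, rfl, rfl⟩, .inr ⟨0, rfl, rfl⟩]
      · exact .inr ⟨m, by rw [show n = m + 1 by omega], rfl⟩
  · refine ⟨S (some p, some p) (some p, none) + S (some q, some q) (none, some q),
      (S_reg _ _ (by simp)).add (S_reg _ _ (by simp)), fun v w => ?_⟩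
    simp only [Language.mem_add, mem_S1, mem_S2]
    constructor
    · rintro (⟨n, rfl, rfl⟩ | ⟨n, rfl, rfl⟩)
      · exact ⟨.inl ⟨_, rfl⟩, .inl ⟨_, rfl⟩, by simp [p, e_rep]⟩
      · exact ⟨.inr ⟨_, rfl⟩, .inr ⟨_, rfl⟩, by simp [q, e_rep, add_comm]⟩
    · rintro ⟨⟨n, rfl⟩ | ⟨n, rfl⟩, ⟨m, rfl⟩ | ⟨m, rfl⟩, h⟩ <;> simp only [p, q, e_rep] at h <;>
        simp only [if_true, Bool.false_eq_true, if_false] at h
      · exact .inl ⟨m, by rw [show n = m + 1 by omega], rfl⟩
      · obtain ⟨rfl, rfl⟩ | ⟨rfl, rfl⟩ : n = 0 ∧ m = 1 ∨ n = 1 ∧ m = 0 := by omega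
        exacts [.inr ⟨0, rfl, rfl⟩, .inl ⟨0, rfl, rfl⟩]
      · omega
      · exact .inr ⟨n, rfl, by rw [show m = n + 1 by omega]⟩

def β (k : ℤ) : Equiv.Perm (ℤ × ℤ) :=
  ⟨fun p => (p.1, p.2 + p.1 + k), fun p => (p.1, p.2 - p.1 - k), fun p => by ext <;> simp; ring,
    fun p => by ext <;> simp; ring⟩

def ψ : FreeGroup Bool →* Equiv.Perm (ℤ × ℤ) :=
  FreeGroup.lift fun i => if i then Equiv.addRight (1, 0) else β 0

theorem conj (g : FreeGroup Bool) : ∀ k, ψ g * β k = β (k - (e g).toAdd) * ψ g := by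
  induction g using FreeGroup.induction_on with
  | C1 => simp
  | of i => intro k; cases i <;> ext p <;> simp [ψ, β, e] <;> ring
  | inv_of i ih =>
    intro k
    rw [map_inv, inv_mul_eq_iff_eq_mul, ← mul_assoc, ih]; simp
  | mul g h ih ih' =>
    intro k
    rw [map_mul, mul_assoc, ih', ← mul_assoc, ih, mul_assoc]; simp [sub_sub, add_comm]

theorem gen (g : FreeGroup Bool) : ∃ w, ev FreeGroup.of w = g := by
  obtain ⟨w⟩ := g
  refine ⟨w, ?_⟩
  induction w with
  | nil => rfl
  | cons p w ih =>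
    obtain ⟨i, _ | _⟩ := p
    · exact (congrArg ((FreeGroup.of i)⁻¹ * ·) ih).trans rfl
    · exact (congrArg (FreeGroup.of i * ·) ih).trans rfl

theorem not_strong : ¬ StronglyCosetAutomatic .of e.ker := by
  rintro ⟨L, K, -, hL, h⟩
  have : ∀ n : ℕ, ∃ u : List (Bool × Bool), u.length ≤ K ∧ ψ (ev FreeGroup.of u) = β (-n) := by
    intro n
    obtain ⟨w, hw, h1⟩ := hL (.of true ^ n)
    have h2 : (e (ev FreeGroup.of w)).toAdd = n := by
      have := (mem_ker _ 1 _).1 ((mul_one (ev FreeGroup.of w)).symm ▸ h1)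
      rw [map_one, toAdd_one, add_zero] at this
      rw [this]; simp [e]
    have h3 := h w hw w hw (ev FreeGroup.of w * FreeGroup.of false * (ev FreeGroup.of w)⁻¹) (by rw [mem_ker]; simp [e])
      (Nat.sInf_le ⟨[(false, true)], rfl, by simp [ev, lt]⟩) 0
    obtain ⟨u, hu, h4⟩ := Nat.sInf_mem (s := {n | ∃ u, u.length = n ∧ ev FreeGroup.of (w.take 0) * ev FreeGroup.of u =
      ev FreeGroup.of w * FreeGroup.of false * (ev FreeGroup.of w)⁻¹ * ev FreeGroup.of (w.take 0)}) (by
        obtain ⟨u, hu⟩ := gen (ev FreeGroup.of w * FreeGroup.of false * (ev FreeGroup.of w)⁻¹)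
        exact ⟨_, u, rfl, by simpa [show ev FreeGroup.of [] = 1 from rfl] using hu⟩)
    refine ⟨u, hu.trans_le h3, ?_⟩
    simp only [take_zero, show ev FreeGroup.of [] = 1 from rfl, one_mul, mul_one] at h4
    rw [h4, map_mul, map_mul, map_inv, show ψ (.of false) = β 0 by simp [ψ], conj, h2]
    simp
  choose u hu h using this
  refine Set.infinite_of_injective_forall_mem (f := u) (fun n m c => ?_) hu
    (List.finite_length_le _ K)
  have := h n
  rw [c, h m] at this
  simpa [β, eq_comm] using congrArg (fun f => (f (0, 0)).2) this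

end H11.Coset

open H11.Coset

theorem Pool.Agent.Results.MP_6b1724_al.Counter.result :
    ∃ (G : Type) (_ : Group G) (ι : Type) (_ : Finite ι) (x : ι → G) (H : Subgroup G),
      Subgroup.closure (Set.range x) = ⊤ ∧ CosetAutomatic x H ∧ ¬ StronglyCosetAutomatic x H :=
  ⟨FreeGroup Bool, inferInstance, Bool, inferInstance, .of, e.ker,
    FreeGroup.closure_range_of _, auto, not_strong⟩
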